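import Pool.Agent.N926.Sup2.K

set_option autoImplicit false

namespace Pool.Agent.Results.MP_950ea9_nt.SunSum

open Finset

/-- the rising factorial `(x)_k = x (x+1) ⋯ (x+k-1)` -/
def rf (x : ℚ) (k : ℕ) : ℚ := ∏ i ∈ range k, (x + (i : ℚ))

/-- `S(p,r) = ∑_{k=0}^{p^r-1} (3k+1) (1/2)_k^3 / k!^3 * 2^(2k)` -/
def S (p r : ℕ) : ℚ :=
  ∑ k ∈ range (p ^ r), (3 * (k : ℚ) + 1) * (rf (1 / 2) k ^ 3 / (k.factorial : ℚ) ^ 3) * 2 ^ (2 * k)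

/-- `x ≡ y (mod p^m)`: `x - y = p^m u` with `u` a rational whose denominator is prime to `p` -/
def Congr (p m : ℕ) (x y : ℚ) : Prop := ∃ u : ℚ, ¬ p ∣ u.den ∧ x - y = (p : ℚ) ^ m * u

open Pool.Agent.N926.Sup2 Pool.Agent.N926.Sup in
/-- for every prime `p > 3` and every `r ≥ 1`,
`S(p,r) ≡ p^r + (7/6) B_{p-3} p^{r+3} (mod p^{r+4})` (`bernoulli` is Mathlib's, `B_1 = -1/2`) -/
theorem result : ∀ p : ℕ, p.Prime → 3 < p → ∀ r : ℕ, 1 ≤ r →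
    Congr p (r + 4) (S p r)
      ((p : ℚ) ^ r + 7 / 6 * bernoulli (p - 3) * (p : ℚ) ^ (r + 3)) := by
  intro p hp h3 r hr
  haveI : Fact p.Prime := ⟨hp⟩
  have h2 : p ≠ 2 := by omega
  obtain ⟨h, hh⟩ := hp.odd_of_ne_two h2
  obtain ⟨s, rfl⟩ : ∃ s, r = s + 1 := ⟨r - 1, by omega⟩
  obtain ⟨M, hM⟩ : Odd (p ^ (s + 1)) := (hp.odd_of_ne_two h2).pow
  have hS : S p (s + 1) = B (2 * M + 1) := by
    unfold S B
    rw [hM]
    refine sum_congr rfl fun k _ => ?_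
    rw [t_rf, div_pow, pow_mul]
    unfold rf
    norm_num
  rw [hS]
  have h4 := mul_P (p := p) (cast_P hM) (B_final (p := p) h2 (by omega) hM hh)
  rw [cast_P hM] at h4
  have e2 : B (2 * M + 1) - (p:ℚ)^(s+1) * (1 + 7/6 * (p:ℚ)^3 * bernoulli (p-3)) =
      B (2 * M + 1) - ((p : ℚ) ^ (s+1) + 7 / 6 * bernoulli (p - 3) * (p : ℚ) ^ (s + 1 + 3)) := by
    rw [pow_add (p:ℚ) (s+1) 3]
    ring
  rw [e2] at h4
  exact congr_of_Dv h4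

end Pool.Agent.Results.MP_950ea9_nt.SunSum
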